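import Mathlib

set_option autoImplicit false

/-!
# Random sequences with a finite moment
-/

namespace Pool.Agent.V5helper94.AC

open MeasureTheory ProbabilityTheory Filter Finset

section prob

variable {Ω : Type} [MeasureSpace Ω] [IsProbabilityMeasure (ℙ : Measure Ω)] {X : ℕ → Ω → ℝ}

open Classical in
/-- A positive proportion of the values is at least one. -/
theorem ae_count (hm : ∀ i, Measurable (X i)) (hind : Pairwise fun i j => IndepFun (X i) (X j))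
    (hid : ∀ i, IdentDistrib (X i) (X 0)) (h1 : ℙ {ω | 1 ≤ X 0 ω} ≠ 0) :
    ∃ q : ℝ, 0 < q ∧ ∀ᵐ ω, ∀ᶠ n : ℕ in atTop,
      q * n ≤ (((range n).filter fun i => 1 ≤ X i ω).card : ℝ) := by
  have hf : Measurable (Set.indicator (Set.Ici (1 : ℝ)) (fun _ => (1 : ℝ))) :=
    measurable_const.indicator measurableSet_Ici
  set f : ℝ → ℝ := Set.indicator (Set.Ici (1 : ℝ)) (fun _ => (1 : ℝ)) with hfd
  have hmeas : MeasurableSet {ω | 1 ≤ X 0 ω} := hm 0 measurableSet_Ici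
  have hfX : (fun ω => f (X 0 ω)) = Set.indicator {ω | 1 ≤ X 0 ω} (fun _ => (1 : ℝ)) := by
    funext ω
    simp only [hfd, Set.indicator_apply, Set.mem_Ici, Set.mem_ofPred_eq]
  have hint : Integrable (fun ω => f (X 0 ω)) := by
    rw [hfX]
    exact (integrable_const (1 : ℝ)).indicator hmeas
  have hE : ∫ ω, f (X 0 ω) = (ℙ : Measure Ω).real {ω | 1 ≤ X 0 ω} := by
    rw [hfX, integral_indicator hmeas]
    simp
  have hpos : 0 < (ℙ : Measure Ω).real {ω | 1 ≤ X 0 ω} :=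
    ENNReal.toReal_pos h1 (measure_ne_top _ _)
  have hslln := strong_law_ae_real (fun i ω => f (X i ω)) hint
    (fun i j hij => (hind hij).comp hf hf) (fun i => (hid i).comp hf)
  refine ⟨(ℙ : Measure Ω).real {ω | 1 ≤ X 0 ω} / 2, by positivity, ?_⟩
  filter_upwards [hslln] with ω hω
  rw [hE] at hω
  have h2 := hω.eventually (lt_mem_nhds (half_lt_self hpos))
  filter_upwards [h2, eventually_ge_atTop 1] with n hn hn1
  have hn0 : (0 : ℝ) < n := by exact_mod_cast hn1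
  have h3 : ∑ i ∈ range n, f (X i ω) = (((range n).filter fun i => 1 ≤ X i ω).card : ℝ) := by
    rw [Finset.card_filter, Nat.cast_sum]
    refine Finset.sum_congr rfl fun i _ => ?_
    simp only [hfd, Set.indicator_apply, Set.mem_Ici, Nat.cast_ite, Nat.cast_one, Nat.cast_zero]
  rw [h3, lt_div_iff₀ hn0] at hn
  exact hn.le

/-- The values with indices below `n` are `o (n ^ (1 / p))` if the `p`-th moment is finite. -/
theorem ae_max {p : ℝ} (hp : 0 < p) (h0 : ∀ i ω, 0 ≤ X i ω)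
    (hid : ∀ i, IdentDistrib (X i) (X 0)) (hint : Integrable fun ω => X 0 ω ^ p) :
    ∀ᵐ ω, ∀ δ : ℝ, 0 < δ → ∀ᶠ n : ℕ in atTop, ∀ i < n, X i ω ≤ δ * (n : ℝ) ^ (1 / p) := by
  have key : ∀ k : ℕ, ∀ᵐ ω, ∀ᶠ n : ℕ in atTop, X n ω ^ p * (k + 1) ≤ n := by
    intro k
    have hk : (0 : ℝ) < (k : ℝ) + 1 := by positivity
    have h1 : Integrable (fun ω => X 0 ω ^ p * ((k : ℝ) + 1)) := hint.mul_const _
    have h2 := tsum_prob_mem_Ioi_lt_top h1 (fun ω => by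
      have := Real.rpow_nonneg (h0 0 ω) p
      simp only [Pi.zero_apply]
      positivity)
    have hf : Measurable fun x : ℝ => x ^ p * ((k : ℝ) + 1) :=
      (measurable_id.pow_const p).mul_const _
    have h3 : ∀ j : ℕ, ℙ {ω | X j ω ^ p * ((k : ℝ) + 1) ∈ Set.Ioi (j : ℝ)} =
        ℙ {ω | X 0 ω ^ p * ((k : ℝ) + 1) ∈ Set.Ioi (j : ℝ)} := fun j =>
      ((hid j).comp hf).measure_mem_eq measurableSet_Ioi
    have h4 : (∑' j : ℕ, ℙ {ω | X j ω ^ p * ((k : ℝ) + 1) ∈ Set.Ioi (j : ℝ)}) ≠ ⊤ := by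
      simp_rw [h3]
      exact h2.ne
    filter_upwards [ae_eventually_notMem h4] with ω hω
    filter_upwards [hω] with n hn
    simpa using hn
  filter_upwards [ae_all_iff.2 key] with ω hω δ hδ
  have hδp : 0 < δ ^ p := Real.rpow_pos_of_pos hδ p
  obtain ⟨k, hk⟩ := exists_nat_one_div_lt hδp
  have hk0 : (0 : ℝ) < (k : ℝ) + 1 := by positivity
  obtain ⟨N, hN⟩ := eventually_atTop.1 (hω k)
  have hbig : ∀ᶠ n : ℕ in atTop, ∑ i ∈ range N, X i ω ^ p ≤ δ ^ p * n := by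
    have h5 : Tendsto (fun n : ℕ => δ ^ p * (n : ℝ)) atTop atTop :=
      tendsto_natCast_atTop_atTop.const_mul_atTop hδp
    exact h5.eventually (eventually_ge_atTop _)
  filter_upwards [hbig] with n hn i hi
  have h6 : X i ω ^ p ≤ δ ^ p * n := by
    rcases lt_or_ge i N with h | h
    · refine le_trans ?_ hn
      exact Finset.single_le_sum (f := fun i => X i ω ^ p)
        (fun j _ => Real.rpow_nonneg (h0 j ω) p) (mem_range.2 h)
    · have h7 := hN i h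
      have h8 : X i ω ^ p ≤ i / ((k : ℝ) + 1) := by
        rw [le_div_iff₀ hk0]
        exact h7
      refine h8.trans ?_
      rw [div_eq_mul_one_div, mul_comm]
      refine mul_le_mul hk.le (by exact_mod_cast hi.le) (Nat.cast_nonneg i) hδp.le
  have h9 : (X i ω ^ p) ^ (1 / p) ≤ (δ ^ p * n) ^ (1 / p) :=
    Real.rpow_le_rpow (Real.rpow_nonneg (h0 i ω) p) h6 (by positivity)
  rw [Real.mul_rpow hδp.le (Nat.cast_nonneg n), ← Real.rpow_mul (h0 i ω), ← Real.rpow_mul hδ.le,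
    mul_one_div_cancel hp.ne', Real.rpow_one, Real.rpow_one] at h9
  exact h9

end prob

section det

variable {x : ℕ → ℝ} {q p : ℝ}

theorem floor_half {y : ℝ} (hy : 1 ≤ y) : y / 2 ≤ (⌊y⌋₊ : ℝ) := by
  have h1 : (1 : ℝ) ≤ ⌊y⌋₊ := by
    exact_mod_cast (Nat.one_le_floor_iff y).2 hy
  have h2 := Nat.lt_floor_add_one y
  linarith

open Classical in
theorem sum_ge {n : ℕ} {c : ℝ} {f : ℕ → ℝ} (hc : 0 ≤ c) (hf : ∀ i, 0 ≤ f i)
    (hf1 : ∀ i, 1 ≤ x i → c ≤ f i)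
    (h : q * n ≤ (((range n).filter fun i => 1 ≤ x i).card : ℝ)) :
    q * n * c ≤ ∑ i ∈ range n, f i := by
  calc q * n * c ≤ (((range n).filter fun i => 1 ≤ x i).card : ℝ) * c :=
        mul_le_mul_of_nonneg_right h hc
    _ = ∑ i ∈ (range n).filter (fun i => 1 ≤ x i), c := by
        rw [Finset.sum_const, nsmul_eq_mul]
    _ ≤ ∑ i ∈ (range n).filter (fun i => 1 ≤ x i), f i :=
        Finset.sum_le_sum fun i hi => hf1 i (mem_filter.1 hi).2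
    _ ≤ ∑ i ∈ range n, f i :=
        Finset.sum_le_sum_of_subset_of_nonneg (filter_subset _ _) fun i _ _ => hf i

open Classical in
theorem sum_floor_ge {n : ℕ} {a : ℝ} (ha : 1 ≤ a)
    (h : q * n ≤ (((range n).filter fun i => 1 ≤ x i).card : ℝ)) :
    q * n * (a / 2) ≤ ((∑ i : Fin n, ⌊a * x i⌋₊ : ℕ) : ℝ) := by
  have h1 : ∑ i : Fin n, ⌊a * x i⌋₊ = ∑ i ∈ range n, ⌊a * x i⌋₊ :=
    Fin.sum_univ_eq_sum_range (fun i => ⌊a * x i⌋₊) n
  rw [h1, Nat.cast_sum]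
  refine sum_ge (by linarith) (fun i => Nat.cast_nonneg _) (fun i hi => ?_) h
  have h2 : a ≤ a * x i := le_mul_of_one_le_right (by linarith) hi
  have h3 := floor_half (ha.trans h2)
  linarith

open Classical in
theorem sum_sq_ge {n : ℕ} {a : ℝ} (ha : 2 ≤ a)
    (h : q * n ≤ (((range n).filter fun i => 1 ≤ x i).card : ℝ)) :
    q * n * (a ^ 2 / 4) ≤
      ((∑ i : Fin n, (if 2 ≤ ⌊a * x i⌋₊ then ⌊a * x i⌋₊ ^ 2 else 0) : ℕ) : ℝ) := by
  have h1 : ∑ i : Fin n, (if 2 ≤ ⌊a * x i⌋₊ then ⌊a * x i⌋₊ ^ 2 else 0) =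
      ∑ i ∈ range n, (if 2 ≤ ⌊a * x i⌋₊ then ⌊a * x i⌋₊ ^ 2 else 0) :=
    Fin.sum_univ_eq_sum_range (fun i => if 2 ≤ ⌊a * x i⌋₊ then ⌊a * x i⌋₊ ^ 2 else 0) n
  rw [h1, Nat.cast_sum]
  refine sum_ge (by positivity) (fun i => Nat.cast_nonneg _) (fun i hi => ?_) h
  have h2 : a ≤ a * x i := le_mul_of_one_le_right (by linarith) hi
  have h3 := floor_half (y := a * x i) (by linarith)
  have h4 : 2 ≤ ⌊a * x i⌋₊ := Nat.le_floor (by push_cast; linarith)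
  rw [if_pos h4]
  push_cast
  nlinarith

/-- The bound for the largest multiplicity. -/
theorem floor_bound {a b y : ℝ} (ha : 1 ≤ a) (hb : 1 ≤ b) (hy : y ≤ b) :
    ⌊a * y⌋₊ ≤ ⌊a * b⌋₊ ∧ ((⌊a * b⌋₊ : ℝ) + 1) ≤ 2 * (a * b) := by
  refine ⟨Nat.floor_le_floor (mul_le_mul_of_nonneg_left hy (by linarith)), ?_⟩
  have h1 := Nat.floor_le (show 0 ≤ a * b by positivity)
  have h2 : 1 ≤ a * b := one_le_mul_of_one_le_of_one_le ha hb
  linarith

open Classical in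
/-- The criterion for all degrees. -/
theorem crit_all {n : ℕ} {a b : ℝ} (ha : 1 ≤ a) (hb : 1 ≤ b) (hx : ∀ i < n, x i ≤ b)
    (h : q * n ≤ (((range n).filter fun i => 1 ≤ x i).card : ℝ))
    (hab : 200000 * (a * b ^ 2) ≤ q * n) :
    ∃ μ : ℕ, (∀ i : Fin n, ⌊a * x i⌋₊ ≤ μ) ∧
      25000 * (μ + 1) ^ 2 ≤ ∑ i : Fin n, ⌊a * x i⌋₊ := by
  refine ⟨⌊a * b⌋₊, fun i => (floor_bound ha hb (hx i i.2)).1, ?_⟩
  have h1 := sum_floor_ge ha h
  have h2 := (floor_bound ha hb (le_refl b)).2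
  have h3 : ((⌊a * b⌋₊ : ℝ) + 1) ^ 2 ≤ (2 * (a * b)) ^ 2 :=
    pow_le_pow_left₀ (by positivity) h2 2
  have h4 : (25000 * ((⌊a * b⌋₊ : ℝ) + 1) ^ 2) ≤ ((∑ i : Fin n, ⌊a * x i⌋₊ : ℕ) : ℝ) := by
    refine le_trans ?_ h1
    have h5 : 200000 * (a * b ^ 2) * (a / 2) ≤ q * n * (a / 2) :=
      mul_le_mul_of_nonneg_right hab (by linarith)
    nlinarith
  exact_mod_cast h4

open Classical in
theorem det_all {C : ℝ} (hq : 0 < q) (hp : 2 ≤ p) (hC : 0 < C)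
    (h1 : ∀ᶠ n : ℕ in atTop, q * n ≤ (((range n).filter fun i => 1 ≤ x i).card : ℝ))
    (h2 : ∀ δ : ℝ, 0 < δ → ∀ᶠ n : ℕ in atTop, ∀ i < n, x i ≤ δ * (n : ℝ) ^ (1 / p)) :
    ∀ᶠ n : ℕ in atTop, ∀ a : ℝ, 1 ≤ a → a ≤ C * (n : ℝ) ^ (1 - 2 / p) →
      ∃ μ : ℕ, (∀ i : Fin n, ⌊a * x i⌋₊ ≤ μ) ∧
        25000 * (μ + 1) ^ 2 ≤ ∑ i : Fin n, ⌊a * x i⌋₊ := by
  have hd : 0 < q / (200000 * C) := by positivity
  have hδ : 0 < √(q / (200000 * C)) := Real.sqrt_pos.2 hd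
  have hp0 : 0 < p := by linarith
  have h3 : ∀ᶠ n : ℕ in atTop, 1 ≤ √(q / (200000 * C)) * (n : ℝ) ^ (1 / p) := by
    have h4 : Tendsto (fun n : ℕ => √(q / (200000 * C)) * (n : ℝ) ^ (1 / p)) atTop atTop :=
      ((tendsto_rpow_atTop (by positivity)).comp tendsto_natCast_atTop_atTop).const_mul_atTop hδ
    exact h4.eventually (eventually_ge_atTop 1)
  filter_upwards [h1, h2 _ hδ, h3, eventually_ge_atTop 1] with n hn1 hn2 hn3 hn4 a ha haC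
  refine crit_all ha hn3 hn2 hn1 ?_
  have hn0 : (0 : ℝ) < n := by exact_mod_cast hn4
  have h5 : ((n : ℝ) ^ (1 / p)) ^ 2 = (n : ℝ) ^ (2 / p) := by
    rw [← Real.rpow_natCast, ← Real.rpow_mul hn0.le]
    congr 1
    push_cast
    ring
  have h6 : (n : ℝ) ^ (1 - 2 / p) * (n : ℝ) ^ (2 / p) = n := by
    rw [← Real.rpow_add hn0, sub_add_cancel, Real.rpow_one]
  have h7 : 0 < (n : ℝ) ^ (2 / p) := Real.rpow_pos_of_pos hn0 _
  rw [mul_pow, Real.sq_sqrt hd.le, h5]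
  calc 200000 * (a * (q / (200000 * C) * (n : ℝ) ^ (2 / p)))
      = a * (200000 * (q / (200000 * C)) * (n : ℝ) ^ (2 / p)) := by ring
    _ ≤ (C * (n : ℝ) ^ (1 - 2 / p)) * (200000 * (q / (200000 * C)) * (n : ℝ) ^ (2 / p)) :=
        mul_le_mul_of_nonneg_right haC (by positivity)
    _ = 200000 * C * (q / (200000 * C)) * ((n : ℝ) ^ (1 - 2 / p) * (n : ℝ) ^ (2 / p)) := by ring
    _ = q * n := by
        rw [h6, mul_div_cancel₀ _ (by positivity)]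

open Classical in
theorem det_win {ε : ℝ} (hq : 0 < q) (hp : 2 ≤ p) (hε : 0 < ε)
    (h1 : ∀ᶠ n : ℕ in atTop, q * n ≤ (((range n).filter fun i => 1 ≤ x i).card : ℝ))
    (h2 : ∀ δ : ℝ, 0 < δ → ∀ᶠ n : ℕ in atTop, ∀ i < n, x i ≤ δ * (n : ℝ) ^ (1 / p)) :
    ∀ᶠ n : ℕ in atTop, ∀ a : ℝ, 2 ≤ a → ∃ M : ℕ, 1 ≤ M ∧ (∀ i : Fin n, ⌊a * x i⌋₊ < M) ∧
      576 * M ^ 2 ≤ ∑ i : Fin n, (if 2 ≤ ⌊a * x i⌋₊ then ⌊a * x i⌋₊ ^ 2 else 0) ∧
      720 * (M : ℝ) ^ 6 / √((∑ i : Fin n,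
        (if 2 ≤ ⌊a * x i⌋₊ then ⌊a * x i⌋₊ ^ 2 else 0) : ℕ) : ℝ) ^ 5 ≤
        ε * a * (n : ℝ) ^ (6 / p - 5 / 2) ∧
      9 * ∑ i : Fin n, ⌊a * x i⌋₊ ^ 2 < (∑ i : Fin n, ⌊a * x i⌋₊) ^ 2 := by
  have hp0 : 0 < p := by linarith
  obtain ⟨δ, hδ, hδ0, hδ1, hδ2, hδ3⟩ : ∃ δ : ℝ, 0 < δ ∧ 13 * δ ≤ q ∧ δ ≤ 1 ∧ δ ^ 2 ≤ q / 9216 ∧
      1474560 * δ ^ 6 ≤ ε * √q ^ 5 := by
    have e1 : 0 < √(q / 9216) := Real.sqrt_pos.2 (by positivity)
    have e2 : 0 < ε * √q ^ 5 / 1474560 := by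
      have := Real.sqrt_pos.2 hq
      positivity
    refine ⟨min (√(q / 9216)) (min (min 1 (q / 13)) (ε * √q ^ 5 / 1474560)), by positivity, ?_, ?_, ?_, ?_⟩
    · have h3 : min (√(q / 9216)) (min (min 1 (q / 13)) (ε * √q ^ 5 / 1474560)) ≤ q / 13 :=
        (min_le_right _ _).trans ((min_le_left _ _).trans (min_le_right _ _))
      linarith
    · exact (min_le_right _ _).trans ((min_le_left _ _).trans (min_le_left _ _))
    · have h3 := min_le_left (√(q / 9216)) (min (min 1 (q / 13)) (ε * √q ^ 5 / 1474560))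
      have h4 : 0 ≤ min (√(q / 9216)) (min (min 1 (q / 13)) (ε * √q ^ 5 / 1474560)) := by positivity
      calc _ ≤ √(q / 9216) ^ 2 := pow_le_pow_left₀ h4 h3 2
        _ = q / 9216 := Real.sq_sqrt (by positivity)
    · have h3 : min (√(q / 9216)) (min (min 1 (q / 13)) (ε * √q ^ 5 / 1474560)) ≤ 1 :=
        (min_le_right _ _).trans ((min_le_left _ _).trans (min_le_left _ _))
      have h4 : 0 ≤ min (√(q / 9216)) (min (min 1 (q / 13)) (ε * √q ^ 5 / 1474560)) := by positivity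
      have h5 := pow_le_of_le_one h4 h3 (show 6 ≠ 0 by norm_num)
      have h6 : min (√(q / 9216)) (min (min 1 (q / 13)) (ε * √q ^ 5 / 1474560)) ≤ ε * √q ^ 5 / 1474560 :=
        (min_le_right _ _).trans (min_le_right _ _)
      rw [le_div_iff₀ (by norm_num)] at h6
      linarith
  have h3 : ∀ᶠ n : ℕ in atTop, 1 ≤ δ * (n : ℝ) ^ (1 / p) := by
    have h4 : Tendsto (fun n : ℕ => δ * (n : ℝ) ^ (1 / p)) atTop atTop :=
      ((tendsto_rpow_atTop (by positivity)).comp tendsto_natCast_atTop_atTop).const_mul_atTop hδ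
    exact h4.eventually (eventually_ge_atTop 1)
  filter_upwards [h1, h2 _ hδ, h3, eventually_ge_atTop 1] with n hn1 hn2 hn3 hn4 a ha
  have hn0 : (0 : ℝ) < n := by exact_mod_cast hn4
  have hn1' : (1 : ℝ) ≤ n := by exact_mod_cast hn4
  have ha1 : 1 ≤ a := by linarith
  have hT := sum_sq_ge ha hn1
  set T : ℕ := ∑ i : Fin n, (if 2 ≤ ⌊a * x i⌋₊ then ⌊a * x i⌋₊ ^ 2 else 0) with hTd
  set r : ℝ := (n : ℝ) ^ (1 / p) with hr
  have hr0 : 0 < r := Real.rpow_pos_of_pos hn0 _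
  have hr2 : r ^ 2 ≤ n := by
    rw [hr, ← Real.rpow_natCast, ← Real.rpow_mul hn0.le]
    calc (n : ℝ) ^ (1 / p * ((2 : ℕ) : ℝ)) ≤ (n : ℝ) ^ (1 : ℝ) := by
          refine Real.rpow_le_rpow_of_exponent_le hn1' ?_
          push_cast
          rw [div_mul_eq_mul_div, one_mul, div_le_one hp0]
          exact hp
      _ = n := Real.rpow_one _
  have hM := (floor_bound ha1 hn3 (le_refl (δ * r))).2
  have hM1 : ((⌊a * (δ * r)⌋₊ + 1 : ℕ) : ℝ) ≤ 2 * (a * (δ * r)) := by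
    push_cast
    exact hM
  refine ⟨⌊a * (δ * r)⌋₊ + 1, Nat.succ_le_succ (Nat.zero_le _),
    fun i => Nat.lt_succ_of_le (floor_bound ha1 hn3 (hn2 i i.2)).1, ?_, ?_, ?_⟩
  · have h5 : ((⌊a * (δ * r)⌋₊ + 1 : ℕ) : ℝ) ^ 2 ≤ (2 * (a * (δ * r))) ^ 2 :=
      pow_le_pow_left₀ (Nat.cast_nonneg _) hM1 2
    have h6 : δ ^ 2 * r ^ 2 ≤ q / 9216 * n :=
      mul_le_mul hδ2 hr2 (by positivity) (by positivity)
    have h7 : 576 * ((⌊a * (δ * r)⌋₊ + 1 : ℕ) : ℝ) ^ 2 ≤ (T : ℝ) := by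
      refine le_trans ?_ hT
      have h8 : a ^ 2 * (δ ^ 2 * r ^ 2) ≤ a ^ 2 * (q / 9216 * n) :=
        mul_le_mul_of_nonneg_left h6 (by positivity)
      nlinarith
    exact_mod_cast h7
  · have h5 : ((⌊a * (δ * r)⌋₊ + 1 : ℕ) : ℝ) ^ 6 ≤ (2 * (a * (δ * r))) ^ 6 :=
      pow_le_pow_left₀ (Nat.cast_nonneg _) hM1 6
    have hs : √q * √(n : ℝ) * (a / 2) ≤ √(T : ℝ) := by
      rw [show √q * √(n : ℝ) * (a / 2) = √(q * n * (a ^ 2 / 4)) from ?_]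
      · exact Real.sqrt_le_sqrt hT
      · rw [Real.sqrt_mul (by positivity), Real.sqrt_mul hq.le,
          show a ^ 2 / 4 = (a / 2) ^ 2 by ring, Real.sqrt_sq (by linarith)]
    have hq0 := Real.sqrt_pos.2 hq
    have hsn := Real.sqrt_pos.2 hn0
    have hs0 : 0 < √q * √(n : ℝ) * (a / 2) := by positivity
    have h6 : (√q * √(n : ℝ) * (a / 2)) ^ 5 ≤ √(T : ℝ) ^ 5 := pow_le_pow_left₀ hs0.le hs 5
    have h7 : (n : ℝ) ^ (6 / p - 5 / 2) = r ^ 6 / √(n : ℝ) ^ 5 := by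
      rw [Real.rpow_sub hn0, hr, Real.sqrt_eq_rpow, ← Real.rpow_natCast, ← Real.rpow_natCast,
        ← Real.rpow_mul hn0.le, ← Real.rpow_mul hn0.le]
      congr 2
      · push_cast
        ring
      · push_cast
        ring
    rw [h7]
    calc 720 * ((⌊a * (δ * r)⌋₊ + 1 : ℕ) : ℝ) ^ 6 / √(T : ℝ) ^ 5
        ≤ 720 * (2 * (a * (δ * r))) ^ 6 / (√q * √(n : ℝ) * (a / 2)) ^ 5 := by
          refine div_le_div₀ (by positivity) (by linarith) (by positivity) h6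
      _ = 1474560 * δ ^ 6 * (a * (r ^ 6 / √(n : ℝ) ^ 5)) / √q ^ 5 := by
          field_simp
          ring
      _ ≤ ε * √q ^ 5 * (a * (r ^ 6 / √(n : ℝ) ^ 5)) / √q ^ 5 := by
          refine div_le_div_of_nonneg_right (mul_le_mul_of_nonneg_right hδ3 (by positivity))
            (by positivity)
      _ = ε * a * (r ^ 6 / √(n : ℝ) ^ 5) := by
          field_simp
  · have h5 : ((∑ i : Fin n, ⌊a * x i⌋₊ ^ 2 : ℕ) : ℝ) ≤ n * (2 * (a * (δ * r))) ^ 2 := by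
      rw [Nat.cast_sum]
      refine (Finset.sum_le_card_nsmul _ _ ((2 * (a * (δ * r))) ^ 2) fun i _ => ?_).trans ?_
      · push_cast
        refine pow_le_pow_left₀ (Nat.cast_nonneg _) ?_ 2
        have h6 : ((⌊a * x i⌋₊ : ℕ) : ℝ) ≤ ((⌊a * (δ * r)⌋₊ : ℕ) : ℝ) := by
          exact_mod_cast (floor_bound ha1 hn3 (hn2 i i.2)).1
        linarith
      · rw [Finset.card_univ, Fintype.card_fin, nsmul_eq_mul]
    have h6 := sum_floor_ge ha1 hn1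
    have h7 : (q * n * (a / 2)) ^ 2 ≤ ((∑ i : Fin n, ⌊a * x i⌋₊ : ℕ) : ℝ) ^ 2 :=
      pow_le_pow_left₀ (by positivity) h6 2
    have h8 : a ^ 2 * δ ^ 2 * (r ^ 2 * n) ≤ a ^ 2 * δ ^ 2 * (n * n) :=
      mul_le_mul_of_nonneg_left (mul_le_mul_of_nonneg_right hr2 hn0.le) (by positivity)
    have h9 : (13 * δ) ^ 2 ≤ q ^ 2 := pow_le_pow_left₀ (by positivity) hδ0 2
    have h10 : (13 * δ) ^ 2 * (a ^ 2 * (n * n)) ≤ q ^ 2 * (a ^ 2 * (n * n)) :=
      mul_le_mul_of_nonneg_right h9 (by positivity)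
    have h11 : 0 < δ ^ 2 * (a ^ 2 * ((n : ℝ) * n)) := by positivity
    have h12 : 9 * ((∑ i : Fin n, ⌊a * x i⌋₊ ^ 2 : ℕ) : ℝ) <
        ((∑ i : Fin n, ⌊a * x i⌋₊ : ℕ) : ℝ) ^ 2 := by
      refine lt_of_lt_of_le ?_ h7
      refine lt_of_le_of_lt (mul_le_mul_of_nonneg_left h5 (by norm_num)) ?_
      nlinarith
    exact_mod_cast h12

open Classical in
theorem det_bounded {K : ℝ} (hq : 0 < q) (hK : ∀ i, x i ≤ K)
    (h1 : ∀ᶠ n : ℕ in atTop, q * n ≤ (((range n).filter fun i => 1 ≤ x i).card : ℝ)) :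
    ∀ᶠ n : ℕ in atTop, ∀ a : ℝ, 1 ≤ a → a ≤ q / (200000 * (max K 1) ^ 2) * n →
      ∃ μ : ℕ, (∀ i : Fin n, ⌊a * x i⌋₊ ≤ μ) ∧
        25000 * (μ + 1) ^ 2 ≤ ∑ i : Fin n, ⌊a * x i⌋₊ := by
  filter_upwards [h1] with n hn1 a ha haC
  have hK1 : 1 ≤ max K 1 := le_max_right _ _
  refine crit_all ha hK1 (fun i _ => (hK i).trans (le_max_left _ _)) hn1 ?_
  have hK0 : 0 < 200000 * (max K 1) ^ 2 := by positivity
  calc 200000 * (a * (max K 1) ^ 2) = a * (200000 * (max K 1) ^ 2) := by ring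
    _ ≤ q / (200000 * (max K 1) ^ 2) * n * (200000 * (max K 1) ^ 2) :=
        mul_le_mul_of_nonneg_right haC hK0.le
    _ = q * n := by
        field_simp

end det

end Pool.Agent.V5helper94.AC
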