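import Pool.Agent.V5helper94.AC.Win

/-! # Counting the classes -/

set_option autoImplicit false

namespace Pool.Agent.V5helper94.AC

open Finset

open Classical in
/-- From the vectors with many large coordinates to all vectors of the box. -/
theorem count {n M D : ℕ} (hM : 2 ≤ M) (G : ℕ → (Fin n → ℕ) → Prop) {B : ℝ} (hB : 0 ≤ B)
    (h : ∀ w : Fin n → ℕ, (∀ i, w i < M) → n ≤ 8 * big M w →
      (((Icc 1 D).filter (fun d => ¬ G d w)).card : ℝ) ≤ B * D) :
    (((Icc 1 D ×ˢ Vec n M).filter (fun a => ¬ G a.1 a.2)).card : ℝ) ≤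
      ((3 / 4) ^ n + B) * (D * (M : ℝ) ^ n) := by
  have h1 : (((Icc 1 D ×ˢ Vec n M).filter (fun a => ¬ G a.1 a.2)).card : ℝ) =
      ∑ w ∈ Vec n M, (((Icc 1 D).filter (fun d => ¬ G d w)).card : ℝ) := by
    rw [card_filter, sum_product_right]
    push_cast
    refine sum_congr rfl fun w _ => ?_
    rw [card_filter]
    push_cast
    rfl
  rw [h1, ← sum_filter_add_sum_filter_not (Vec n M) (fun w => 8 * big M w < n)]
  have h2 : ∑ w ∈ (Vec n M).filter (fun w => 8 * big M w < n),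
      (((Icc 1 D).filter (fun d => ¬ G d w)).card : ℝ) ≤ (3 / 4) ^ n * (M : ℝ) ^ n * D := by
    have h3 : ∑ w ∈ (Vec n M).filter (fun w => 8 * big M w < n),
        (((Icc 1 D).filter (fun d => ¬ G d w)).card : ℝ) ≤
        ∑ _w ∈ (Vec n M).filter (fun w => 8 * big M w < n), (D : ℝ) := by
      refine sum_le_sum fun w _ => ?_
      have h4 := card_filter_le (Icc 1 D) (fun d => ¬ G d w)
      rw [Nat.card_Icc, Nat.add_sub_cancel] at h4
      exact_mod_cast h4
    rw [sum_const, nsmul_eq_mul] at h3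
    exact h3.trans (mul_le_mul_of_nonneg_right (few hM) (Nat.cast_nonneg _))
  have h5 : ∑ w ∈ (Vec n M).filter (fun w => ¬ 8 * big M w < n),
      (((Icc 1 D).filter (fun d => ¬ G d w)).card : ℝ) ≤ B * D * (M : ℝ) ^ n := by
    have h6 : ∑ w ∈ (Vec n M).filter (fun w => ¬ 8 * big M w < n),
        (((Icc 1 D).filter (fun d => ¬ G d w)).card : ℝ) ≤
        ∑ _w ∈ (Vec n M).filter (fun w => ¬ 8 * big M w < n), B * D := by
      refine sum_le_sum fun w hw => ?_
      rw [mem_filter] at hw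
      exact h w (mem_Vec.1 hw.1) (by omega)
    rw [sum_const, nsmul_eq_mul] at h6
    refine h6.trans ?_
    rw [mul_comm]
    refine mul_le_mul_of_nonneg_left ?_ (by positivity)
    have h7 := card_filter_le (Vec n M) (fun w => ¬ 8 * big M w < n)
    rw [card_Vec] at h7
    exact_mod_cast h7
  calc _ ≤ (3 / 4) ^ n * (M : ℝ) ^ n * D + B * D * (M : ℝ) ^ n := add_le_add h2 h5
    _ = _ := by ring

open Classical in
/-- The exceptional degrees up to `D`. -/
theorem count_degrees {n M D : ℕ} (hn : 3000000 ≤ n) (hM : 6 ≤ M) {α β : ℝ}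
    (hα : (M : ℝ) * √n / 10 ≤ α) (hβ : β - α + 1 ≤ √n + 32000000 * M / ((n : ℝ) ^ 2 * √n))
    {p : ℕ → Prop} (hp : ∀ d : ℕ, ¬ p d → α < (d : ℝ) ∧ (d : ℝ) < β) :
    (((Icc 1 D).filter (fun d => ¬ p d)).card : ℝ) ≤ (10 / M + 320000000 / (n : ℝ) ^ 3) * D := by
  have hM' : (6 : ℝ) ≤ M := by exact_mod_cast hM
  have hM0 : (0 : ℝ) < M := by linarith
  have hn' : (3000000 : ℝ) ≤ n := by exact_mod_cast hn
  have hn0 : (0 : ℝ) < n := by linarith
  obtain ⟨s, hs⟩ : ∃ s : ℝ, s = √(n : ℝ) := ⟨_, rfl⟩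
  have hs0 : 0 < s := by rw [hs]; exact Real.sqrt_pos.2 hn0
  have hs2 : s ^ 2 = n := by rw [hs]; exact Real.sq_sqrt hn0.le
  rw [← hs] at hα hβ
  have hα0 : 0 ≤ α := le_trans (by positivity) hα
  rcases le_or_gt (D : ℝ) α with hD | hD
  · have h1 : (Icc 1 D).filter (fun d => ¬ p d) = ∅ := by
      refine filter_eq_empty_iff.2 fun d hd hd' => ?_
      have h2 := (hp d hd').1
      have h3 : (d : ℝ) ≤ D := by exact_mod_cast (mem_Icc.1 hd).2
      linarith
    rw [h1, card_empty, Nat.cast_zero]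
    positivity
  · refine (card_Ioo_le hα0 (fun d hd => hp d (mem_filter.1 hd).2) (by positivity) hβ).trans ?_
    have h1 : (M : ℝ) * s ≤ 10 * D := by linarith
    have h2 : s ≤ 10 / M * D := by
      have h3 : s * M ≤ 10 * D := by linarith
      calc s = s * M / M := by field_simp
        _ ≤ 10 * D / M := div_le_div_of_nonneg_right h3 hM0.le
        _ = 10 / M * D := by ring
    have h4 : 32000000 * M / ((n : ℝ) ^ 2 * s) ≤ 320000000 / (n : ℝ) ^ 3 * D := by
      have h5 : 32000000 * M / ((n : ℝ) ^ 2 * s) = 32000000 * (M * s) / (n : ℝ) ^ 3 := by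
        rw [← hs2]
        field_simp
      rw [h5]
      calc 32000000 * (M * s) / (n : ℝ) ^ 3 ≤ 32000000 * (10 * D) / (n : ℝ) ^ 3 :=
            div_le_div_of_nonneg_right (by linarith) (by positivity)
        _ = 320000000 / (n : ℝ) ^ 3 * D := by ring
    calc s + 32000000 * M / ((n : ℝ) ^ 2 * s) ≤ 10 / M * D + 320000000 / (n : ℝ) ^ 3 * D :=
          add_le_add h2 h4
      _ = _ := by ring

/-- Many large coordinates: the sum of the coordinates. -/
theorem sum_large {n M : ℕ} {w : Fin n → ℕ} (hn : 600000 * M ≤ n) (ha : n ≤ 8 * big M w) :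
    25000 * M ^ 2 ≤ ∑ i, w i := by
  have h1 : ∑ _i ∈ univ.filter (fun i => M ≤ 3 * w i), M ≤ ∑ i, 3 * w i :=
    le_trans (sum_le_sum (g := fun i => 3 * w i) fun i hi => (mem_filter.1 hi).2)
      (sum_le_sum_of_subset (filter_subset _ _))
  rw [sum_const, smul_eq_mul, ← mul_sum] at h1
  have h2 : big M w * M ≤ 3 * ∑ i, w i := h1
  have h3 : 600000 * M * M ≤ 8 * (big M w * M) := by
    calc 600000 * M * M ≤ n * M := Nat.mul_le_mul_right _ hn
      _ ≤ 8 * big M w * M := Nat.mul_le_mul_right _ ha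
      _ = 8 * (big M w * M) := by ring
  have h4 : 600000 * M * M = 600000 * M ^ 2 := by ring
  omega

theorem pow_small {n : ℕ} (hn : 1 ≤ n) : ((3 : ℝ) / 4) ^ n ≤ 4 / n := by
  have hn0 : (0 : ℝ) < n := by exact_mod_cast hn
  have h1 : 1 + (n : ℝ) * (1 / 3) ≤ (1 + 1 / 3) ^ n := one_add_mul_le_pow (by norm_num) n
  have h2 : ((3 : ℝ) / 4) ^ n * (1 + 1 / 3) ^ n = 1 := by
    rw [← mul_pow]
    norm_num
  have h3 : (0 : ℝ) < (3 / 4) ^ n := by positivity
  rw [le_div_iff₀ hn0]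
  have h4 : (3 / 4 : ℝ) ^ n * (1 + (n : ℝ) * (1 / 3)) ≤ 1 :=
    (mul_le_mul_of_nonneg_left h1 h3.le).trans_eq h2
  nlinarith

/-- The uniform bound. -/
theorem uniform {n M : ℕ} (hn : 3000000 ≤ n) (hM : n < 600000 * M) :
    ((3 : ℝ) / 4) ^ n + (10 / M + 320000000 / (n : ℝ) ^ 3) ≤ 10 ^ 7 / n := by
  have hn' : (3000000 : ℝ) ≤ n := by exact_mod_cast hn
  have hn0 : (0 : ℝ) < n := by linarith
  have hM' : (n : ℝ) < 600000 * M := by exact_mod_cast hM
  have hM0 : (0 : ℝ) < M := by linarith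
  have h1 := pow_small (show 1 ≤ n by omega)
  have h2 : 10 / (M : ℝ) ≤ 6000000 / n := by
    rw [div_le_div_iff₀ hM0 hn0]
    linarith
  have h3 : 320000000 / (n : ℝ) ^ 3 ≤ 1 / n := by
    rw [div_le_div_iff₀ (by positivity) hn0]
    have h4 : (3000000 : ℝ) ^ 2 ≤ (n : ℝ) ^ 2 := pow_le_pow_left₀ (by norm_num) hn' 2
    nlinarith
  have h5 : (4 : ℝ) / n + (6000000 / n + 1 / n) ≤ 10 ^ 7 / n := by
    rw [← add_div, ← add_div]
    refine div_le_div_of_nonneg_right (by norm_num) hn0.le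
  linarith

end Pool.Agent.V5helper94.AC
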