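import Pool.Agent.V5helper94.AC.Win

/-! # The window of the exceptional degrees of a single vector -/

set_option autoImplicit false

namespace Pool.Agent.V5helper94.AC

open Finset

/-- The exceptional degrees of a vector are in a short interval. -/
theorem window_gen {n M T : ℕ} {w u : Fin n → ℕ} (hM : 1 ≤ M)
    (hT : T = ∑ i, if 2 ≤ w i then w i ^ 2 else 0) (hTM : 576 * M ^ 2 ≤ T)
    (hu : ∀ i, u i = if w i ≤ 1 then 0 else w i + 1) :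
    ∃ α β : ℝ, 0 ≤ α ∧ β - α + 1 ≤ √n + 720 * (M : ℝ) ^ 6 / √T ^ 5 ∧
      (∀ d : ℕ, (d : ℝ) ≤ α → 576 * M ^ 2 ≤ ∑ i, w i ^ 2 ∧
        d ^ 2 * (∑ i, w i ^ 2) ^ 2 + 700 * M ^ 6 < (∑ i, w i ^ 2) ^ 3) ∧
      (∀ d : ℕ, β ≤ (d : ℝ) → ∑ i, u i ^ 2 < (d + 3) ^ 2 ∧ 24 * M ≤ d + 3 ∧
        700 * M ^ 6 + (d + 3) ^ 4 * ∑ i, u i ^ 2 ≤ (d + 3) ^ 6) := by
  obtain ⟨S, hS⟩ : ∃ S : ℕ, S = ∑ i, w i ^ 2 := ⟨_, rfl⟩
  obtain ⟨Q, hQ⟩ : ∃ Q : ℕ, Q = ∑ i, u i ^ 2 := ⟨_, rfl⟩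
  rw [← hS, ← hQ]
  have hM' : (1 : ℝ) ≤ M := by exact_mod_cast hM
  have hM0 : (0 : ℝ) < M := by linarith
  have hSl : T ≤ S := by
    rw [hT, hS]
    exact sum_le_sum fun i _ => by split_ifs <;> omega
  have hQl : T ≤ Q := by
    rw [hT, hQ]
    refine sum_le_sum fun i _ => ?_
    rw [hu i]
    by_cases h : 2 ≤ w i
    · rw [if_pos h, if_neg (by omega)]
      exact Nat.pow_le_pow_left (by omega) 2
    · rw [if_neg h]
      exact Nat.zero_le _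
  have hSl' : (T : ℝ) ≤ S := by exact_mod_cast hSl
  have hQl' : (T : ℝ) ≤ Q := by exact_mod_cast hQl
  obtain ⟨t, ht⟩ : ∃ t : ℝ, t = √(T : ℝ) := ⟨_, rfl⟩
  have ht24 : 24 * (M : ℝ) ≤ t := by
    rw [ht]
    refine Real.le_sqrt_of_sq_le ?_
    have : 576 * (M : ℝ) ^ 2 ≤ T := by exact_mod_cast hTM
    nlinarith
  have ht0 : 0 < t := by linarith
  obtain ⟨y, hy⟩ : ∃ y : ℝ, y = √(S : ℝ) := ⟨_, rfl⟩
  obtain ⟨x, hx⟩ : ∃ x : ℝ, x = √(Q : ℝ) := ⟨_, rfl⟩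
  have hy2 : y ^ 2 = S := by rw [hy]; exact Real.sq_sqrt (Nat.cast_nonneg _)
  have hx2 : x ^ 2 = Q := by rw [hx]; exact Real.sq_sqrt (Nat.cast_nonneg _)
  have hty : t ≤ y := by rw [hy, ht]; exact Real.sqrt_le_sqrt hSl'
  have htx : t ≤ x := by rw [hx, ht]; exact Real.sqrt_le_sqrt hQl'
  obtain ⟨δ, hδ⟩ : ∃ δ : ℝ, δ = 360 * (M : ℝ) ^ 6 / t ^ 5 := ⟨_, rfl⟩
  have hδt : δ * t ^ 5 = 360 * (M : ℝ) ^ 6 := by rw [hδ]; field_simp
  have hδ0 : 0 < δ := by rw [hδ]; positivity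
  obtain ⟨s, hs⟩ : ∃ s : ℝ, s = √(n : ℝ) := ⟨_, rfl⟩
  have hs0 : 0 ≤ s := by rw [hs]; exact Real.sqrt_nonneg _
  have hs2 : s ^ 2 = n := by rw [hs]; exact Real.sq_sqrt (Nat.cast_nonneg _)
  rw [← hs, ← ht]
  have hδM : 2 * δ = 720 * (M : ℝ) ^ 6 / t ^ 5 := by rw [hδ]; ring
  have hδ36 : 36 * δ ≤ t := by
    have h6 : (24 * (M : ℝ)) ^ 6 ≤ t ^ 6 := pow_le_pow_left₀ (by linarith) ht24 6
    have h1 : (36 * δ) * t ^ 5 ≤ t * t ^ 5 := by
      have h2 : (36 * δ) * t ^ 5 = 36 * (360 * (M : ℝ) ^ 6) := by rw [← hδt]; ring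
      rw [h2]
      have h3 : t * t ^ 5 = t ^ 6 := by ring
      rw [h3]
      refine le_trans ?_ h6
      have h4 : (0 : ℝ) ≤ (M : ℝ) ^ 6 := by positivity
      have h5 : (24 * (M : ℝ)) ^ 6 = 191102976 * (M : ℝ) ^ 6 := by ring
      rw [h5]
      linarith
    exact le_of_mul_le_mul_right h1 (by positivity)
  have hxy : x ≤ y + s := by
    have h1 : ((∑ i, w i : ℕ) : ℝ) ≤ s * y := by
      have h2 : ((∑ i, w i : ℕ) : ℝ) ^ 2 ≤ (s * y) ^ 2 := by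
        have h3 : (∑ i, (w i : ℝ)) ^ 2 ≤ (univ : Finset (Fin n)).card * ∑ i, (w i : ℝ) ^ 2 :=
          sq_sum_le_card_mul_sum_sq
        rw [card_univ, Fintype.card_fin] at h3
        rw [mul_pow, hs2, hy2, hS]
        push_cast
        exact h3
      have hy0 : 0 ≤ y := by linarith
      exact le_of_sq_le_sq h2 (by positivity)
    have h4 : (Q : ℝ) ≤ (y + s) ^ 2 := by
      have h5 : Q ≤ S + 2 * (∑ i, w i) + n := by
        have h6 : ∑ i : Fin n, (w i ^ 2 + 2 * w i + 1) = S + 2 * (∑ i, w i) + n := by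
          rw [sum_add_distrib, sum_add_distrib, ← mul_sum, hS]
          simp
        rw [← h6, hQ]
        refine sum_le_sum fun i _ => ?_
        rw [hu i]
        split_ifs
        · positivity
        · nlinarith
      have h7 : (Q : ℝ) ≤ S + 2 * ((∑ i, w i : ℕ) : ℝ) + n := by exact_mod_cast h5
      nlinarith
    have h8 : x ^ 2 ≤ (y + s) ^ 2 := by rw [hx2]; exact h4
    have hy0 : 0 ≤ y := by linarith
    exact le_of_sq_le_sq h8 (by positivity)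
  refine ⟨y - δ, x - 3 + δ, by linarith, by linarith, ?_, ?_⟩
  · intro d hd
    have h1 := win_neg hM0 ht24 hty hδt (Nat.cast_nonneg d) hd
    rw [hy2] at h1
    exact ⟨by exact_mod_cast h1.1, by exact_mod_cast h1.2⟩
  · intro d hd
    have h1 := win_pos (e := (d : ℝ) + 3) hM0 ht24 htx hδt (by linarith)
    rw [hx2] at h1
    exact ⟨by exact_mod_cast h1.1, by exact_mod_cast h1.2.1, by exact_mod_cast h1.2.2⟩

end Pool.Agent.V5helper94.AC
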