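import Mathlib

/-! # Numerical lemmas on classes -/

set_option autoImplicit false

namespace Pool.Agent.V5helper94.AC

open Finset

/-- The degree of a standard class is minimal in its orbit, numerical part. -/
theorem dom {n : ℕ} (hn : 3 ≤ n) {e d : ℤ} {u w : Fin n → ℤ} (hu0 : ∀ i, 0 ≤ u i)
    (hu : ∀ i, u i + 1 ≤ e) (hK : ∑ i, u i = 3 * e - 3)
    (hs : ∀ i j k : Fin n, i ≠ j → i ≠ k → j ≠ k → w i + w j + w k ≤ d) :
    ∑ i, u i * w i + d ≤ e * d := by
  classical
  obtain ⟨a, -, ha⟩ := exists_max_image (univ : Finset (Fin n)) w ⟨⟨0, by omega⟩, mem_univ _⟩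
  have h1 : ((univ : Finset (Fin n)).erase a).card = n - 1 := by
    rw [card_erase_of_mem (mem_univ _), card_univ, Fintype.card_fin]
  obtain ⟨b, hb, hb'⟩ := exists_max_image ((univ : Finset (Fin n)).erase a) w
    (card_pos.1 (by rw [h1]; omega))
  have h2 : (((univ : Finset (Fin n)).erase a).erase b).card = n - 2 := by
    rw [card_erase_of_mem hb, h1]
    omega
  obtain ⟨c, hc, hc'⟩ := exists_max_image (((univ : Finset (Fin n)).erase a).erase b) w
    (card_pos.1 (by rw [h2]; omega))
  have hba : b ≠ a := (mem_erase.1 hb).1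
  have hcb : c ≠ b := (mem_erase.1 hc).1
  have hca : c ≠ a := (mem_erase.1 (mem_erase.1 hc).2).1
  obtain ⟨R, hR⟩ : ∃ R : Finset (Fin n),
      R = ((((univ : Finset (Fin n)).erase a).erase b).erase c) := ⟨_, rfl⟩
  have split : ∀ f : Fin n → ℤ, ∑ i, f i = f a + (f b + (f c + ∑ i ∈ R, f i)) := by
    intro f
    rw [hR, add_sum_erase _ f hc, add_sum_erase _ f hb, add_sum_erase _ f (mem_univ a)]
  have h3 : ∑ i ∈ R, u i * w i ≤ w c * ∑ i ∈ R, u i := by
    rw [mul_sum]
    refine sum_le_sum fun i hi => ?_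
    rw [hR] at hi
    have h4 := hc' i (mem_erase.1 hi).2
    have h5 := hu0 i
    nlinarith
  have h4 := split u
  have h5 := split (fun i => u i * w i)
  have h6 : w a ≥ w b := ha b (mem_univ _)
  have h7 : w b ≥ w c := hb' c (mem_erase.1 hc).2
  have h8 := hs a b c hba.symm hca.symm hcb.symm
  have h9 := hu a
  have h10 := hu b
  have h11 := hu c
  have h12 : ∑ i ∈ R, u i = 3 * (e - 1) - u a - u b - u c := by linarith
  have h13 : ∑ i, u i * w i ≤ (e - 1) * (w a + w b + w c) := by
    rw [h5]
    rw [h12] at h3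
    nlinarith [mul_nonneg (show 0 ≤ e - 1 - u a by linarith) (show 0 ≤ w a - w c by linarith),
      mul_nonneg (show 0 ≤ e - 1 - u b by linarith) (show 0 ≤ w b - w c by linarith)]
  have h14 : (e - 1) * (w a + w b + w c) ≤ (e - 1) * d :=
    mul_le_mul_of_nonneg_left h8 (by have := hu0 a; linarith)
  linarith

/-- The intersection form. -/
def form {n : ℕ} (a b : ℤ × (Fin n → ℤ)) : ℤ := a.1 * b.1 - ∑ l, a.2 l * b.2 l

theorem form_add {n : ℕ} (a b c : ℤ × (Fin n → ℤ)) : form (a + b) c = form a c + form b c := by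
  unfold form
  have h : ∑ l, (a + b).2 l * c.2 l = ∑ l, a.2 l * c.2 l + ∑ l, b.2 l * c.2 l := by
    rw [← sum_add_distrib]
    refine sum_congr rfl fun l _ => ?_
    rw [Prod.snd_add, Pi.add_apply]
    ring
  rw [h, Prod.fst_add]
  ring

theorem form_comm {n : ℕ} (a b : ℤ × (Fin n → ℤ)) : form a b = form b a := by
  unfold form
  rw [mul_comm]
  congr 1
  exact sum_congr rfl fun l _ => mul_comm _ _

theorem form_zero {n : ℕ} (c : ℤ × (Fin n → ℤ)) : form 0 c = 0 := by
  unfold form
  simp

theorem form_sum {n k : ℕ} (v : Fin k → ℤ × (Fin n → ℤ)) (c : ℤ × (Fin n → ℤ)) :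
    form (∑ a, v a) c = ∑ a, form (v a) c := by
  classical
  induction (univ : Finset (Fin k)) using Finset.induction_on with
  | empty => rw [sum_empty, sum_empty, form_zero]
  | insert a s ha ih => rw [sum_insert ha, sum_insert ha, form_add, ih]

/-- Orthogonal classes of square `-1`. -/
theorem form_decomp {n k : ℕ} {x y : ℤ × (Fin n → ℤ)} {v : Fin k → ℤ × (Fin n → ℤ)}
    (hx : x = y + ∑ a, v a) (hy : ∀ a, form y (v a) = 0)
    (hv : ∀ a b, form (v a) (v b) = if a = b then -1 else 0) :
    form y y = form x x + k := by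
  have h1 : form (∑ a, v a) (∑ a, v a) = -k := by
    rw [form_sum]
    have h2 : ∀ a, form (v a) (∑ b, v b) = -1 := by
      intro a
      rw [form_comm, form_sum]
      have h3 : ∀ b, form (v b) (v a) = if b = a then -1 else 0 := fun b => hv b a
      rw [sum_congr rfl fun b _ => h3 b, sum_ite_eq' univ a]
      simp
    rw [sum_congr rfl fun a _ => h2 a]
    simp
  have h4 : form y (∑ a, v a) = 0 := by
    rw [form_comm, form_sum]
    refine sum_eq_zero fun a _ => ?_
    rw [form_comm]
    exact hy a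
  have h5 : form x x = form y y + form y (∑ a, v a) + (form (∑ a, v a) y +
      form (∑ a, v a) (∑ a, v a)) := by
    rw [hx, form_add, form_comm y (y + _), form_add, form_comm (∑ a, v a) (y + _), form_add,
      form_comm y (∑ a, v a)]
  rw [h5, form_comm (∑ a, v a) y, h4, h1]
  ring

/-- There are at most `n + 1` orthogonal classes of square `-1`. -/
theorem card_orth {n k : ℕ} {v : Fin k → ℤ × (Fin n → ℤ)}
    (hv : ∀ a b, form (v a) (v b) = if a = b then -1 else 0) : k ≤ n + 1 := by
  classical
  have hli : LinearIndependent ℝ (fun a : Fin k =>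
      ((((v a).1 : ℝ), fun i => ((v a).2 i : ℝ)) : ℝ × (Fin n → ℝ))) := by
    rw [Fintype.linearIndependent_iff]
    intro g hg b
    have h1 : ∑ a, g a * ((v a).1 : ℝ) = 0 := by
      have := congrArg Prod.fst hg
      rw [Prod.fst_sum] at this
      simpa using this
    have h2 : ∀ i, ∑ a, g a * ((v a).2 i : ℝ) = 0 := by
      intro i
      have := congrFun (congrArg Prod.snd hg) i
      rw [Prod.snd_sum, Finset.sum_apply] at this
      simpa using this
    have h3 : ∑ a, g a * ((form (v a) (v b) : ℤ) : ℝ) = 0 := by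
      have h4 : ∀ a, g a * ((form (v a) (v b) : ℤ) : ℝ) =
          g a * ((v a).1 : ℝ) * ((v b).1 : ℝ) -
            ∑ i, g a * ((v a).2 i : ℝ) * ((v b).2 i : ℝ) := by
        intro a
        unfold form
        push_cast
        rw [mul_sub, mul_sum]
        congr 1
        · ring
        · exact sum_congr rfl fun i _ => by ring
      rw [sum_congr rfl fun a _ => h4 a, sum_sub_distrib, ← sum_mul, h1, zero_mul, sum_comm]
      have h5 : ∀ i, ∑ a, g a * ((v a).2 i : ℝ) * ((v b).2 i : ℝ) = 0 := by
        intro i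
        rw [← sum_mul, h2 i, zero_mul]
      rw [sum_congr rfl fun i _ => h5 i]
      simp
    have h6 : ∀ a, g a * ((form (v a) (v b) : ℤ) : ℝ) = if a = b then -g a else 0 := by
      intro a
      rw [hv a b]
      split_ifs <;> simp
    rw [sum_congr rfl fun a _ => h6 a, sum_ite_eq' univ b] at h3
    simpa using h3
  have h := hli.fintype_card_le_finrank
  rw [Fintype.card_fin, Module.finrank_prod, Module.finrank_self,
    Module.finrank_fintype_fun_eq_card, Fintype.card_fin] at h
  omega

end Pool.Agent.V5helper94.AC
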