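import Pool.Agent.V5helper94.AC.Cnt

/-! # The window of the exceptional degrees, any number of points -/

set_option autoImplicit false

namespace Pool.Agent.V5helper94.AC

open Finset

/-- From the reduced class to the class itself. -/
theorem unresolved {n k d d1 : ℕ} {w w1 u : Fin n → ℕ} (hk : k ≤ n + 1) (hd : d1 ≤ d)
    (h2 : (d1 : ℤ) ^ 2 - ∑ i, (w1 i : ℤ) ^ 2 = (d : ℤ) ^ 2 - ∑ i, (w i : ℤ) ^ 2 + k)
    (h1 : -3 * (d1 : ℤ) + ∑ i, (w1 i : ℤ) = -3 * (d : ℤ) + ∑ i, (w i : ℤ) + k)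
    (hu : ∀ i, u i ≤ w1 i + 1) (ha : ¬ 40 * d1 ^ 2 < 39 * ∑ i, w1 i ^ 2)
    (hb : ¬ 40 * ∑ i, u i ^ 2 ≤ 39 * (d1 + 3) ^ 2) :
    39 * ∑ i, w i ^ 2 ≤ 40 * d ^ 2 + 39 * (n + 1) ∧
      39 * (d + 3) ^ 2 < 40 * (∑ i, (w i + 1) ^ 2 + (n + 1)) := by
  obtain ⟨A, hA⟩ : ∃ A : ℤ, A = ∑ i, (w i : ℤ) ^ 2 := ⟨_, rfl⟩
  obtain ⟨A1, hA1⟩ : ∃ A1 : ℤ, A1 = ∑ i, (w1 i : ℤ) ^ 2 := ⟨_, rfl⟩
  obtain ⟨B, hB⟩ : ∃ B : ℤ, B = ∑ i, (w i : ℤ) := ⟨_, rfl⟩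
  obtain ⟨B1, hB1⟩ : ∃ B1 : ℤ, B1 = ∑ i, (w1 i : ℤ) := ⟨_, rfl⟩
  obtain ⟨Q, hQ⟩ : ∃ Q : ℤ, Q = ((∑ i, u i ^ 2 : ℕ) : ℤ) := ⟨_, rfl⟩
  have sq : ∀ v : Fin n → ℕ, ((∑ i, (v i + 1) ^ 2 : ℕ) : ℤ) =
      ∑ i, (v i : ℤ) ^ 2 + 2 * ∑ i, (v i : ℤ) + n := by
    intro v
    push_cast
    have h3 : ∀ i, ((v i : ℤ) + 1) ^ 2 = (v i : ℤ) ^ 2 + 2 * (v i : ℤ) + 1 := fun i => by ring
    rw [sum_congr rfl fun i _ => h3 i, sum_add_distrib, sum_add_distrib, ← mul_sum]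
    simp
  have hQ1 : Q ≤ A1 + 2 * B1 + n := by
    rw [hQ, hA1, hB1, ← sq w1]
    have : ∑ i, u i ^ 2 ≤ ∑ i, (w1 i + 1) ^ 2 :=
      sum_le_sum fun i _ => Nat.pow_le_pow_left (hu i) 2
    exact_mod_cast this
  have ha' : 39 * A1 ≤ 40 * (d1 : ℤ) ^ 2 := by
    rw [hA1]
    have := not_lt.1 ha
    exact_mod_cast this
  have hb' : 39 * ((d1 : ℤ) + 3) ^ 2 < 40 * Q := by
    rw [hQ]
    have := not_le.1 hb
    exact_mod_cast this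
  rw [← hA, ← hA1] at h2
  rw [← hB, ← hB1] at h1
  have hk' : (k : ℤ) ≤ n + 1 := by exact_mod_cast hk
  have hd' : (d1 : ℤ) ≤ d := by exact_mod_cast hd
  have hd0 : (0 : ℤ) ≤ d1 := Nat.cast_nonneg _
  have hdd : (d1 : ℤ) ^ 2 ≤ (d : ℤ) ^ 2 := pow_le_pow_left₀ hd0 hd' 2
  have hdd3 : ((d1 : ℤ) + 3) ^ 2 ≤ ((d : ℤ) + 3) ^ 2 := pow_le_pow_left₀ (by linarith) (by linarith) 2
  constructor
  · have h3 : 39 * A ≤ 40 * (d : ℤ) ^ 2 + 39 * (n + 1) := by linarith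
    rw [hA] at h3
    exact_mod_cast h3
  · have h3 : 39 * ((d : ℤ) + 3) ^ 2 < 40 * (A + 2 * B + n + (n + 1)) := by nlinarith
    have h4 := sq w
    rw [← hA, ← hB] at h4
    have h5 : 39 * ((d : ℤ) + 3) ^ 2 < 40 * (((∑ i, (w i + 1) ^ 2 : ℕ) : ℤ) + (n + 1)) := by
      rw [h4]
      exact h3
    exact_mod_cast h5

/-- The number of the exceptional degrees. -/
theorem count_all {n D : ℕ} (hn : 4 ≤ n) {w : Fin n → ℕ} {s : Finset ℕ}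
    (hs : ∀ d ∈ s, d ≤ D ∧ 39 * ∑ i, w i ^ 2 ≤ 40 * d ^ 2 + 39 * (n + 1) ∧
      39 * (d + 3) ^ 2 < 40 * (∑ i, (w i + 1) ^ 2 + (n + 1))) :
    (s.card : ℝ) ≤ D / 39 + 4 * √n := by
  rcases s.eq_empty_or_nonempty with rfl | ⟨d0, hd0⟩
  · rw [card_empty, Nat.cast_zero]
    positivity
  have hn' : (4 : ℝ) ≤ n := by exact_mod_cast hn
  have hn0 : (0 : ℝ) < n := by linarith
  obtain ⟨l, hl⟩ : ∃ l : ℝ, l = √(40 / 39 : ℝ) := ⟨_, rfl⟩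
  have hl2 : l ^ 2 = 40 / 39 := by rw [hl]; exact Real.sq_sqrt (by norm_num)
  have hl0 : 0 < l := by rw [hl]; exact Real.sqrt_pos.2 (by norm_num)
  have hl1 : l ≤ 1.013 := by nlinarith
  have hl1' : 1 ≤ l := by nlinarith
  obtain ⟨y, hy⟩ : ∃ y : ℝ, y = √((∑ i, w i ^ 2 : ℕ) : ℝ) := ⟨_, rfl⟩
  have hy0 : 0 ≤ y := by rw [hy]; exact Real.sqrt_nonneg _
  have hy2 : y ^ 2 = ((∑ i, w i ^ 2 : ℕ) : ℝ) := by rw [hy]; exact Real.sq_sqrt (Nat.cast_nonneg _)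
  obtain ⟨t, ht⟩ : ∃ t : ℝ, t = √((n : ℝ) + 1) := ⟨_, rfl⟩
  have ht0 : 0 < t := by rw [ht]; exact Real.sqrt_pos.2 (by linarith)
  have ht2 : t ^ 2 = n + 1 := by rw [ht]; exact Real.sq_sqrt (by linarith)
  obtain ⟨m, hm⟩ : ∃ m : ℝ, m = √(n : ℝ) := ⟨_, rfl⟩
  have hm0 : 0 ≤ m := by rw [hm]; exact Real.sqrt_nonneg _
  have hm2 : m ^ 2 = n := by rw [hm]; exact Real.sq_sqrt hn0.le
  rw [← hm]
  have hm4 : 2 ≤ m := by nlinarith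
  have htm : t ≤ m + 1 / 4 := by nlinarith
  have hmt : m ≤ t := by nlinarith
  -- the lower end
  have hlow : ∀ d ∈ s, (y - t) / l ≤ (d : ℝ) := by
    intro d hd
    rw [div_le_iff₀ hl0]
    rcases le_or_gt y t with h | h
    · have : (0 : ℝ) ≤ d * l := by positivity
      linarith
    · have h1 : 39 * y ^ 2 ≤ 40 * (d : ℝ) ^ 2 + 39 * (n + 1) := by
        rw [hy2]
        exact_mod_cast (hs d hd).2.1
      have h2 : (y - t) ^ 2 ≤ (d * l) ^ 2 := by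
        rw [mul_pow, hl2]
        nlinarith
      exact le_of_sq_le_sq h2 (by positivity)
  -- the upper end
  have hup : ∀ d ∈ s, (d : ℝ) < l * (y + 2 * t) - 3 := by
    intro d hd
    have h1 : 39 * ((d : ℝ) + 3) ^ 2 < 40 * (((∑ i, (w i + 1) ^ 2 : ℕ) : ℝ) + (n + 1)) := by
      exact_mod_cast (hs d hd).2.2
    have h3 : ((∑ i, w i : ℕ) : ℝ) ≤ m * y := by
      have h4 : ((∑ i, w i : ℕ) : ℝ) ^ 2 ≤ (m * y) ^ 2 := by
        have h5 : (∑ i, (w i : ℝ)) ^ 2 ≤ (univ : Finset (Fin n)).card * ∑ i, (w i : ℝ) ^ 2 :=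
          sq_sum_le_card_mul_sum_sq
        rw [card_univ, Fintype.card_fin] at h5
        rw [mul_pow, hm2, hy2]
        push_cast
        exact h5
      exact le_of_sq_le_sq h4 (by positivity)
    have h6 : ((∑ i, (w i + 1) ^ 2 : ℕ) : ℝ) = y ^ 2 + 2 * ((∑ i, w i : ℕ) : ℝ) + n := by
      have h7 : ∑ i, (w i + 1) ^ 2 = ∑ i, w i ^ 2 + 2 * (∑ i, w i) + n := by
        have h8 : ∀ i, (w i + 1) ^ 2 = w i ^ 2 + 2 * w i + 1 := fun i => by ring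
        rw [sum_congr rfl fun i _ => h8 i, sum_add_distrib, sum_add_distrib, ← mul_sum]
        simp
      rw [hy2, h7]
      push_cast
      ring
    have h9 : ((∑ i, (w i + 1) ^ 2 : ℕ) : ℝ) + (n + 1) ≤ (y + 2 * t) ^ 2 := by
      rw [h6]
      nlinarith [mul_le_mul_of_nonneg_right hmt hy0]
    have h10 : ((d : ℝ) + 3) ^ 2 < (l * (y + 2 * t)) ^ 2 := by
      rw [mul_pow, hl2]
      linarith
    have h11 : (d : ℝ) + 3 < l * (y + 2 * t) := lt_of_pow_lt_pow_left₀ 2 (by positivity) h10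
    linarith
  have hsub : s ⊆ Ico ⌈(y - t) / l⌉₊ ⌈l * (y + 2 * t) - 3⌉₊ := by
    intro d hd
    exact mem_Ico.2 ⟨Nat.ceil_le.2 (hlow d hd), Nat.lt_ceil.2 (hup d hd)⟩
  have hcard := card_le_card hsub
  rw [Nat.card_Ico] at hcard
  have hpos : 0 < s.card := card_pos.2 ⟨d0, hd0⟩
  have h12 : s.card + ⌈(y - t) / l⌉₊ ≤ ⌈l * (y + 2 * t) - 3⌉₊ := by omega
  have h13 : (s.card : ℝ) + (⌈(y - t) / l⌉₊ : ℝ) ≤ (⌈l * (y + 2 * t) - 3⌉₊ : ℝ) := by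
    exact_mod_cast h12
  have h14 : (y - t) / l ≤ (⌈(y - t) / l⌉₊ : ℝ) := Nat.le_ceil _
  have h15 : (⌈l * (y + 2 * t) - 3⌉₊ : ℝ) < l * (y + 2 * t) - 3 + 1 := by
    refine Nat.ceil_lt_add_one ?_
    have := hup d0 hd0
    have h16 : (0 : ℝ) ≤ d0 := Nat.cast_nonneg _
    linarith
  have h17 : (y - t) / l ≤ D := by
    refine (hlow d0 hd0).trans ?_
    exact_mod_cast (hs d0 hd0).1
  obtain ⟨z, hz⟩ : ∃ z : ℝ, z = (y - t) / l := ⟨_, rfl⟩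
  rw [← hz] at h14 h17 h13
  have hzy : y = z * l + t := by
    rw [hz]
    field_simp
    ring
  have h18 : l * (y + 2 * t) - z = z / 39 + 3 * l * t := by
    rw [hzy]
    have : l * (z * l + t + 2 * t) - z = z * (l ^ 2 - 1) + 3 * l * t := by ring
    rw [this, hl2]
    ring
  have h19 : 3 * l * t ≤ 3.04 * t := by nlinarith
  linarith

open Classical in
/-- Counting all classes of the box. -/
theorem count_box {n M D : ℕ} (G : ℕ → (Fin n → ℕ) → Prop) {B : ℝ}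
    (h : ∀ w : Fin n → ℕ, (((Icc 1 D).filter (fun d => ¬ G d w)).card : ℝ) ≤ B) :
    (((Icc 1 D ×ˢ Vec n M).filter (fun a => ¬ G a.1 a.2)).card : ℝ) ≤ B * (M : ℝ) ^ n := by
  have h1 : (((Icc 1 D ×ˢ Vec n M).filter (fun a => ¬ G a.1 a.2)).card : ℝ) =
      ∑ w ∈ Vec n M, (((Icc 1 D).filter (fun d => ¬ G d w)).card : ℝ) := by
    rw [card_filter, sum_product_right]
    push_cast
    refine sum_congr rfl fun w _ => ?_
    rw [card_filter]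
    push_cast
    rfl
  rw [h1]
  refine (sum_le_sum fun w _ => h w).trans ?_
  rw [sum_const, card_Vec, nsmul_eq_mul, mul_comm]
  push_cast
  exact le_rfl

end Pool.Agent.V5helper94.AC
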