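import Mathlib

/-! # Most vectors of a box have many large coordinates -/

set_option autoImplicit false

namespace Pool.Agent.V5helper94.AC

open Finset

/-- The number of the coordinates which are at least `M / 3`. -/
def big {n : ℕ} (M : ℕ) (w : Fin n → ℕ) : ℕ := (univ.filter (fun i => M ≤ 3 * w i)).card

/-- The box `[0, M) ^ n`. -/
def Vec (n M : ℕ) : Finset (Fin n → ℕ) := Fintype.piFinset (fun _ => range M)

theorem mem_Vec {n M : ℕ} {w : Fin n → ℕ} : w ∈ Vec n M ↔ ∀ i, w i < M := by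
  simp [Vec, Fintype.mem_piFinset]

theorem card_Vec (n M : ℕ) : (Vec n M).card = M ^ n := by
  simp [Vec]

theorem half {M : ℕ} (hM : 2 ≤ M) : M ≤ 2 * ((range M).filter (fun v => M ≤ 3 * v)).card := by
  have h : (range M).filter (fun v => M ≤ 3 * v) = Ico ((M + 2) / 3) M := by
    ext v
    simp only [mem_filter, mem_range, mem_Ico]
    omega
  rw [h, Nat.card_Ico]
  omega

theorem sum_one {M : ℕ} (hM : 2 ≤ M) :
    ∑ v ∈ range M, (if M ≤ 3 * v then (1 / 4 : ℝ) else 1) ≤ 5 / 8 * M := by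
  have h1 : ∑ v ∈ range M, (if M ≤ 3 * v then (1 / 4 : ℝ) else 1) =
      M - 3 / 4 * (((range M).filter (fun v => M ≤ 3 * v)).card : ℝ) := by
    have h2 : ∀ v ∈ range M, (if M ≤ 3 * v then (1 / 4 : ℝ) else 1) =
        1 - 3 / 4 * (if M ≤ 3 * v then (1 : ℝ) else 0) := by
      intro v _
      split_ifs <;> norm_num
    rw [sum_congr rfl h2, sum_sub_distrib, ← mul_sum, sum_boole]
    simp
  have h3 : (M : ℝ) ≤ 2 * (((range M).filter (fun v => M ≤ 3 * v)).card : ℝ) := by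
    exact_mod_cast half hM
  rw [h1]
  linarith

theorem few {n M : ℕ} (hM : 2 ≤ M) :
    (((Vec n M).filter (fun w => 8 * big M w < n)).card : ℝ) ≤ (3 / 4) ^ n * (M : ℝ) ^ n := by
  have h1 : (((Vec n M).filter (fun w => 8 * big M w < n)).card : ℝ) * (5 / 6) ^ n ≤
      ∑ w ∈ Vec n M, (1 / 4 : ℝ) ^ big M w := by
    calc (((Vec n M).filter (fun w => 8 * big M w < n)).card : ℝ) * (5 / 6) ^ n
        = ∑ _w ∈ (Vec n M).filter (fun w => 8 * big M w < n), (5 / 6 : ℝ) ^ n := by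
          rw [sum_const, nsmul_eq_mul]
      _ ≤ ∑ w ∈ (Vec n M).filter (fun w => 8 * big M w < n), (1 / 4 : ℝ) ^ big M w := by
          refine sum_le_sum fun w hw => ?_
          have h2 : 8 * big M w < n := (mem_filter.1 hw).2
          calc (5 / 6 : ℝ) ^ n ≤ (5 / 6 : ℝ) ^ (8 * big M w) :=
                pow_le_pow_of_le_one (by norm_num) (by norm_num) h2.le
            _ = ((5 / 6 : ℝ) ^ 8) ^ big M w := by rw [pow_mul]
            _ ≤ (1 / 4 : ℝ) ^ big M w := pow_le_pow_left₀ (by norm_num) (by norm_num) _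
      _ ≤ ∑ w ∈ Vec n M, (1 / 4 : ℝ) ^ big M w :=
          sum_le_sum_of_subset_of_nonneg (filter_subset _ _) fun w _ _ => by positivity
  have h3 : ∑ w ∈ Vec n M, (1 / 4 : ℝ) ^ big M w =
      (∑ v ∈ range M, (if M ≤ 3 * v then (1 / 4 : ℝ) else 1)) ^ n := by
    have h4 : ∀ w ∈ Vec n M, (1 / 4 : ℝ) ^ big M w =
        ∏ i : Fin n, (if M ≤ 3 * w i then (1 / 4 : ℝ) else 1) := by
      intro w _
      rw [big, ← prod_const, prod_filter]
    rw [sum_congr rfl h4]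
    have h5 := (Finset.prod_univ_sum (fun _ : Fin n => range M)
      (fun (_ : Fin n) (v : ℕ) => (if M ≤ 3 * v then (1 / 4 : ℝ) else 1))).symm
    rw [Vec, h5, prod_const, card_univ, Fintype.card_fin]
  have h6 : ∑ w ∈ Vec n M, (1 / 4 : ℝ) ^ big M w ≤ (5 / 8 * (M : ℝ)) ^ n := by
    rw [h3]
    refine pow_le_pow_left₀ (sum_nonneg fun v _ => by split_ifs <;> norm_num) (sum_one hM) n
  have h7 : (5 / 8 * (M : ℝ)) ^ n = ((3 / 4) ^ n * (M : ℝ) ^ n) * (5 / 6) ^ n := by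
    rw [← mul_pow, ← mul_pow]
    congr 1
    ring
  have h8 := (h1.trans h6).trans_eq h7
  exact le_of_mul_le_mul_right h8 (by positivity)

/-- The number of the natural numbers in an open interval. -/
theorem card_Ioo_le {s : Finset ℕ} {α β : ℝ} (hα : 0 ≤ α) (hs : ∀ d ∈ s, α < (d : ℝ) ∧ (d : ℝ) < β) {B : ℝ}
    (hB : 0 ≤ B) (hB' : β - α + 1 ≤ B) : (s.card : ℝ) ≤ B := by
  have h1 : s ⊆ Ioo ⌊α⌋₊ ⌈β⌉₊ := by
    intro d hd
    obtain ⟨h2, h3⟩ := hs d hd
    exact mem_Ioo.2 ⟨(Nat.floor_lt hα).2 h2, Nat.lt_ceil.2 h3⟩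
  have h2 := card_le_card h1
  rw [Nat.card_Ioo] at h2
  rcases Nat.eq_zero_or_pos s.card with h0 | h0
  · rw [h0]
    simpa using hB
  · have h3 : s.card + ⌊α⌋₊ + 1 ≤ ⌈β⌉₊ := by omega
    have h4 : (s.card : ℝ) + (⌊α⌋₊ : ℝ) + 1 ≤ (⌈β⌉₊ : ℝ) := by exact_mod_cast h3
    have h5 : α < (⌊α⌋₊ : ℝ) + 1 := Nat.lt_floor_add_one α
    have h6 : (⌈β⌉₊ : ℝ) < β + 1 := by
      refine Nat.ceil_lt_add_one ?_
      obtain ⟨d, hd⟩ := card_pos.1 h0
      have := (hs d hd).2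
      have h7 : (0 : ℝ) ≤ d := Nat.cast_nonneg d
      linarith
    linarith

end Pool.Agent.V5helper94.AC
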