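import Pool.Agent.V5helper94.AC.Vec

/-! # The window of the exceptional degrees -/

set_option autoImplicit false

namespace Pool.Agent.V5helper94.AC

open Finset

theorem win_neg {M t y d δ : ℝ} (hM : 0 < M) (ht : 24 * M ≤ t) (hy : t ≤ y)
    (hδ : δ * t ^ 5 = 360 * M ^ 6) (hd0 : 0 ≤ d) (hd : d ≤ y - δ) :
    576 * M ^ 2 ≤ y ^ 2 ∧ d ^ 2 * (y ^ 2) ^ 2 + 700 * M ^ 6 < (y ^ 2) ^ 3 := by
  have ht0 : 0 < t := by linarith
  have hy0 : 0 < y := by linarith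
  have hδ0 : 0 < δ := by
    by_contra hcon
    push Not at hcon
    have h1 : δ * t ^ 5 ≤ 0 := mul_nonpos_of_nonpos_of_nonneg hcon (by positivity)
    have h2 : (0 : ℝ) < 360 * M ^ 6 := by positivity
    linarith
  have h6 : (24 * M) ^ 6 ≤ t ^ 6 := pow_le_pow_left₀ (by linarith) ht 6
  have hδt : 36 * δ ≤ t := by
    have h1 : (36 * δ) * t ^ 5 ≤ t * t ^ 5 := by
      have h2 : (36 * δ) * t ^ 5 = 36 * (360 * M ^ 6) := by rw [← hδ]; ring
      rw [h2]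
      have h3 : t * t ^ 5 = t ^ 6 := by ring
      rw [h3]
      refine le_trans ?_ h6
      have h4 : (0 : ℝ) ≤ M ^ 6 := by positivity
      have h5 : (24 * M) ^ 6 = 191102976 * M ^ 6 := by ring
      rw [h5]
      linarith
    exact le_of_mul_le_mul_right h1 (by positivity)
  constructor
  · have h1 : (24 * M) ^ 2 ≤ y ^ 2 := pow_le_pow_left₀ (by linarith) (ht.trans hy) 2
    linarith [h1, (by ring : (24 * M) ^ 2 = 576 * M ^ 2)]
  · have h1 : d ^ 2 ≤ (y - δ) ^ 2 := pow_le_pow_left₀ hd0 hd 2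
    have h2 : δ * (71 / 36 * y) ≤ y ^ 2 - d ^ 2 := by
      have h3 : y ^ 2 - (y - δ) ^ 2 = δ * (2 * y - δ) := by ring
      have h4 : δ * (71 / 36 * y) ≤ δ * (2 * y - δ) :=
        mul_le_mul_of_nonneg_left (by linarith) hδ0.le
      linarith
    have h5 : y ^ 4 * (δ * (71 / 36 * y)) ≤ y ^ 4 * (y ^ 2 - d ^ 2) :=
      mul_le_mul_of_nonneg_left h2 (by positivity)
    have h7 : t ^ 5 ≤ y ^ 5 := pow_le_pow_left₀ ht0.le hy 5
    have h8 : 71 / 36 * (360 * M ^ 6) ≤ y ^ 4 * (δ * (71 / 36 * y)) := by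
      rw [← hδ]
      have h9 : y ^ 4 * (δ * (71 / 36 * y)) = 71 / 36 * (δ * y ^ 5) := by ring
      rw [h9]
      have := mul_le_mul_of_nonneg_left h7 hδ0.le
      linarith
    have h10 : (0 : ℝ) < M ^ 6 := by positivity
    have h11 : y ^ 4 * (y ^ 2 - d ^ 2) = (y ^ 2) ^ 3 - d ^ 2 * (y ^ 2) ^ 2 := by ring
    rw [h11] at h5
    linarith

theorem win_pos {M t x e δ : ℝ} (hM : 0 < M) (ht : 24 * M ≤ t) (hx : t ≤ x)
    (hδ : δ * t ^ 5 = 360 * M ^ 6) (he : x + δ ≤ e) :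
    x ^ 2 < e ^ 2 ∧ 24 * M ≤ e ∧ 700 * M ^ 6 + e ^ 4 * x ^ 2 ≤ e ^ 6 := by
  have ht0 : 0 < t := by linarith
  have hx0 : 0 < x := by linarith
  have hδ0 : 0 < δ := by
    by_contra hcon
    push Not at hcon
    have h1 : δ * t ^ 5 ≤ 0 := mul_nonpos_of_nonpos_of_nonneg hcon (by positivity)
    have h2 : (0 : ℝ) < 360 * M ^ 6 := by positivity
    linarith
  have hex : x < e := by linarith
  refine ⟨pow_lt_pow_left₀ hex hx0.le (by norm_num), by linarith, ?_⟩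
  have h1 : 2 * x * δ ≤ e ^ 2 - x ^ 2 := by
    have h2 : (x + δ) ^ 2 ≤ e ^ 2 := pow_le_pow_left₀ (by linarith) he 2
    nlinarith [sq_nonneg δ]
  have h3 : x ^ 4 ≤ e ^ 4 := pow_le_pow_left₀ hx0.le hex.le 4
  have h4 : x ^ 4 * (2 * x * δ) ≤ e ^ 4 * (e ^ 2 - x ^ 2) :=
    mul_le_mul h3 h1 (by positivity) (by positivity)
  have h5 : t ^ 5 ≤ x ^ 5 := pow_le_pow_left₀ ht0.le hx 5
  have h6 : 720 * M ^ 6 ≤ x ^ 4 * (2 * x * δ) := by
    have h7 : x ^ 4 * (2 * x * δ) = 2 * (δ * x ^ 5) := by ring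
    rw [h7]
    have := mul_le_mul_of_nonneg_left h5 hδ0.le
    linarith
  have h8 : (0 : ℝ) < M ^ 6 := by positivity
  nlinarith

/-- The exceptional degrees of a vector with many large coordinates are in a short interval. -/
theorem window {n M : ℕ} {w u : Fin n → ℕ} (hn : 3000000 ≤ n) (hM : 6 ≤ M)
    (ha : n ≤ 8 * big M w) (hu : ∀ i, u i = if w i ≤ 1 then 0 else w i + 1) :
    ∃ α β : ℝ, (M : ℝ) * √n / 10 ≤ α ∧
      β - α + 1 ≤ √n + 32000000 * M / ((n : ℝ) ^ 2 * √n) ∧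
      (∀ d : ℕ, (d : ℝ) ≤ α → 576 * M ^ 2 ≤ ∑ i, w i ^ 2 ∧
        d ^ 2 * (∑ i, w i ^ 2) ^ 2 + 700 * M ^ 6 < (∑ i, w i ^ 2) ^ 3) ∧
      (∀ d : ℕ, β ≤ (d : ℝ) → ∑ i, u i ^ 2 < (d + 3) ^ 2 ∧ 24 * M ≤ d + 3 ∧
        700 * M ^ 6 + (d + 3) ^ 4 * ∑ i, u i ^ 2 ≤ (d + 3) ^ 6) := by
  obtain ⟨S, hS⟩ : ∃ S : ℕ, S = ∑ i, w i ^ 2 := ⟨_, rfl⟩
  obtain ⟨Q, hQ⟩ : ∃ Q : ℕ, Q = ∑ i, u i ^ 2 := ⟨_, rfl⟩
  rw [← hS, ← hQ]
  have hM' : (6 : ℝ) ≤ M := by exact_mod_cast hM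
  have hM0 : (0 : ℝ) < M := by linarith
  have hn' : (3000000 : ℝ) ≤ n := by exact_mod_cast hn
  have hn0 : (0 : ℝ) < n := by linarith
  -- lower bounds
  have low : ∀ v : Fin n → ℕ, (∀ i, 2 ≤ w i → w i ≤ v i) → n * M ^ 2 ≤ 72 * ∑ i, v i ^ 2 := by
    intro v hv
    have h1 : ∑ _i ∈ univ.filter (fun i => M ≤ 3 * w i), M ^ 2 ≤ ∑ i, 9 * v i ^ 2 := by
      refine le_trans (sum_le_sum (g := fun i => 9 * v i ^ 2) fun i hi => ?_)
        (sum_le_sum_of_subset (filter_subset _ _))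
      have h2 : M ≤ 3 * w i := (mem_filter.1 hi).2
      have h3 := hv i (by omega)
      calc M ^ 2 ≤ (3 * v i) ^ 2 := Nat.pow_le_pow_left (by omega) 2
        _ = 9 * v i ^ 2 := by ring
    rw [sum_const, smul_eq_mul, ← mul_sum] at h1
    have h2 : n * M ^ 2 ≤ 8 * (big M w * M ^ 2) := by
      calc n * M ^ 2 ≤ (8 * big M w) * M ^ 2 := Nat.mul_le_mul_right _ ha
        _ = 8 * (big M w * M ^ 2) := by ring
    have h3 : big M w * M ^ 2 ≤ 9 * ∑ i, v i ^ 2 := h1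
    omega
  have hSl : n * M ^ 2 ≤ 72 * S := by rw [hS]; exact low w fun i _ => le_rfl
  have hQl : n * M ^ 2 ≤ 72 * Q := by
    rw [hQ]
    refine low u fun i hi => ?_
    rw [hu i, if_neg (by omega)]
    omega
  have hSl' : (n : ℝ) * M ^ 2 ≤ 72 * S := by exact_mod_cast hSl
  have hQl' : (n : ℝ) * M ^ 2 ≤ 72 * Q := by exact_mod_cast hQl
  -- the numbers
  obtain ⟨r, hr⟩ : ∃ r : ℝ, r = √((n : ℝ) / 72) := ⟨_, rfl⟩
  have hr0 : 0 ≤ r := by rw [hr]; exact Real.sqrt_nonneg _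
  have hr2 : r ^ 2 = n / 72 := by rw [hr]; exact Real.sq_sqrt (by positivity)
  have hr24 : 24 ≤ r := by
    rw [hr]
    refine Real.le_sqrt_of_sq_le ?_
    rw [le_div_iff₀ (by norm_num)]
    linarith
  have hrp : 0 < r := by linarith
  obtain ⟨t, ht⟩ : ∃ t : ℝ, t = M * r := ⟨_, rfl⟩
  have ht24 : 24 * (M : ℝ) ≤ t := by rw [ht]; nlinarith
  have ht0 : 0 < t := by linarith
  have ht2 : t ^ 2 = n * M ^ 2 / 72 := by rw [ht, mul_pow, hr2]; ring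
  obtain ⟨y, hy⟩ : ∃ y : ℝ, y = √(S : ℝ) := ⟨_, rfl⟩
  obtain ⟨x, hx⟩ : ∃ x : ℝ, x = √(Q : ℝ) := ⟨_, rfl⟩
  have hy2 : y ^ 2 = S := by rw [hy]; exact Real.sq_sqrt (Nat.cast_nonneg _)
  have hx2 : x ^ 2 = Q := by rw [hx]; exact Real.sq_sqrt (Nat.cast_nonneg _)
  have hty : t ≤ y := by
    rw [hy]
    refine Real.le_sqrt_of_sq_le ?_
    rw [ht2]
    linarith
  have htx : t ≤ x := by
    rw [hx]
    refine Real.le_sqrt_of_sq_le ?_
    rw [ht2]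
    linarith
  obtain ⟨δ, hδ⟩ : ∃ δ : ℝ, δ = 360 * (M : ℝ) ^ 6 / t ^ 5 := ⟨_, rfl⟩
  have hδt : δ * t ^ 5 = 360 * (M : ℝ) ^ 6 := by rw [hδ]; field_simp
  have hδ0 : 0 < δ := by rw [hδ]; positivity
  -- square root of `n`
  obtain ⟨s, hs⟩ : ∃ s : ℝ, s = √(n : ℝ) := ⟨_, rfl⟩
  have hs0 : 0 < s := by rw [hs]; exact Real.sqrt_pos.2 hn0
  have hs2 : s ^ 2 = n := by rw [hs]; exact Real.sq_sqrt hn0.le
  have hsr : s ≤ 8.5 * r := by
    have h1 : s ^ 2 ≤ (8.5 * r) ^ 2 := by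
      rw [mul_pow, hr2, hs2]
      linarith
    exact le_of_sq_le_sq h1 (by positivity)
  rw [← hs]
  have hδM : 2 * δ ≤ 32000000 * M / ((n : ℝ) ^ 2 * s) := by
    have h1 : (n : ℝ) ^ 2 * s ≤ 44064 * r ^ 5 := by
      have h2 : (n : ℝ) = 72 * r ^ 2 := by rw [hr2]; ring
      rw [h2]
      have h3 : (72 * r ^ 2) ^ 2 * s ≤ (72 * r ^ 2) ^ 2 * (8.5 * r) :=
        mul_le_mul_of_nonneg_left hsr (by positivity)
      nlinarith
    have h4 : δ = 360 * M / r ^ 5 := by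
      rw [hδ, ht]
      field_simp
    rw [h4, le_div_iff₀ (by positivity)]
    have h5 : 2 * (360 * (M : ℝ) / r ^ 5) * ((n : ℝ) ^ 2 * s) ≤
        2 * (360 * (M : ℝ) / r ^ 5) * (44064 * r ^ 5) :=
      mul_le_mul_of_nonneg_left h1 (by positivity)
    refine h5.trans ?_
    have h6 : 2 * (360 * (M : ℝ) / r ^ 5) * (44064 * r ^ 5) = 31726080 * M := by
      field_simp
      ring
    rw [h6]
    linarith
  have hδ36 : 36 * δ ≤ t := by
    have h6 : (24 * (M : ℝ)) ^ 6 ≤ t ^ 6 := pow_le_pow_left₀ (by linarith) ht24 6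
    have h1 : (36 * δ) * t ^ 5 ≤ t * t ^ 5 := by
      have h2 : (36 * δ) * t ^ 5 = 36 * (360 * (M : ℝ) ^ 6) := by rw [← hδt]; ring
      rw [h2]
      have h3 : t * t ^ 5 = t ^ 6 := by ring
      rw [h3]
      refine le_trans ?_ h6
      have h4 : (0 : ℝ) ≤ (M : ℝ) ^ 6 := by positivity
      have h5 : (24 * (M : ℝ)) ^ 6 = 191102976 * (M : ℝ) ^ 6 := by ring
      rw [h5]
      linarith
    exact le_of_mul_le_mul_right h1 (by positivity)
  -- `x ≤ y + s`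
  have hxy : x ≤ y + s := by
    have h1 : ((∑ i, w i : ℕ) : ℝ) ≤ s * y := by
      have h2 : ((∑ i, w i : ℕ) : ℝ) ^ 2 ≤ (s * y) ^ 2 := by
        have h3 : (∑ i, (w i : ℝ)) ^ 2 ≤ (univ : Finset (Fin n)).card * ∑ i, (w i : ℝ) ^ 2 :=
          sq_sum_le_card_mul_sum_sq
        rw [card_univ, Fintype.card_fin] at h3
        rw [mul_pow, hs2, hy2, hS]
        push_cast
        exact h3
      have hy0 : 0 ≤ y := by linarith
      exact le_of_sq_le_sq h2 (by positivity)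
    have h4 : (Q : ℝ) ≤ (y + s) ^ 2 := by
      have h5 : Q ≤ S + 2 * (∑ i, w i) + n := by
        have h6 : ∑ i : Fin n, (w i ^ 2 + 2 * w i + 1) = S + 2 * (∑ i, w i) + n := by
          rw [sum_add_distrib, sum_add_distrib, ← mul_sum, hS]
          simp
        rw [← h6, hQ]
        refine sum_le_sum fun i _ => ?_
        rw [hu i]
        split_ifs
        · positivity
        · nlinarith
      have h7 : (Q : ℝ) ≤ S + 2 * ((∑ i, w i : ℕ) : ℝ) + n := by exact_mod_cast h5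
      nlinarith
    have h8 : x ^ 2 ≤ (y + s) ^ 2 := by rw [hx2]; exact h4
    have hy0 : 0 ≤ y := by linarith
    exact le_of_sq_le_sq h8 (by positivity)
  refine ⟨y - δ, x - 3 + δ, ?_, ?_, ?_, ?_⟩
  · have h1 : (M : ℝ) * s ≤ M * (8.5 * r) := mul_le_mul_of_nonneg_left hsr hM0.le
    have h2 : (M : ℝ) * (8.5 * r) = 8.5 * t := by rw [ht]; ring
    linarith
  · linarith
  · intro d hd
    have h1 := win_neg hM0 ht24 hty hδt (Nat.cast_nonneg d) hd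
    rw [hy2] at h1
    exact ⟨by exact_mod_cast h1.1, by exact_mod_cast h1.2⟩
  · intro d hd
    have h1 := win_pos (e := (d : ℝ) + 3) hM0 ht24 htx hδt (by linarith)
    rw [hx2] at h1
    exact ⟨by exact_mod_cast h1.1, by exact_mod_cast h1.2.1, by exact_mod_cast h1.2.2⟩

end Pool.Agent.V5helper94.AC
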